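import Pool.Agent.Helper93.WC.St

set_option autoImplicit false

open Polynomial Helper62.Weber Pool.Agent.Helper93.WC

namespace Pool.Agent.Helper39.WC

section

variable {S : Type} [CommRing S]

theorem isu {n j : ℕ} {z : S} (hz : z ^ 2 ^ (n + 1) = -1) (h2 : IsUnit (2 : S)) (hj : Odd j) :
    IsUnit (1 - z ^ j) := by
  refine isUnit_of_dvd_unit ?_ h2
  have h := sub_dvd_pow_sub_pow (1 : S) (z ^ j) (2 ^ (n + 1))
  rw [one_pow, ← pow_mul, mul_comm j, pow_mul, hz, hj.neg_one_pow, sub_neg_eq_add,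
    one_add_one_eq_two] at h
  exact h

theorem isu' {n j : ℕ} {z : S} (hz : z ^ 2 ^ (n + 1) = -1) (h2 : IsUnit (2 : S)) (hj : Odd j) :
    IsUnit (1 + z ^ j) := by
  have hz' : (-z) ^ 2 ^ (n + 1) = -1 := by
    rw [Even.neg_pow, hz]
    exact (even_two).pow_of_ne_zero (Nat.succ_ne_zero n)
  have h := isu hz' h2 hj
  rwa [hj.neg_pow, sub_neg_eq_add] at h

theorem pow_lin (x : S) (hx : x * x = 0) (m : ℕ) : (1 + x) ^ m = 1 + m * x := by
  induction m with
  | zero => simp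
  | succ m ih =>
    rw [pow_succ, ih]
    push_cast
    linear_combination (m : S) * hx

theorem three (n : ℕ) (hn : 2 ≤ n) : ∃ m, Odd m ∧ 3 ^ 2 ^ (n - 1) = 1 + 2 ^ (n + 1) * m := by
  induction n, hn using Nat.le_induction with
  | base => exact ⟨1, odd_one, by norm_num⟩
  | succ n hn ih =>
    obtain ⟨m, hm, h⟩ := ih
    refine ⟨m + 2 ^ n * m ^ 2, hm.add_even ?_, ?_⟩
    · exact ((even_two).pow_of_ne_zero (by omega)).mul_right _
    · have e : n + 1 - 1 = (n - 1) + 1 := by omega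
      rw [e, pow_succ, pow_mul, h]
      ring

/-- `χ u = ψ(u) u^(-l)` -/
def chi (ψ : S →+* S) (l : ℕ) (u : Sˣ) : Sˣ := Units.map ψ.toMonoidHom u * (u ^ l)⁻¹

theorem chi_mul (ψ : S →+* S) (l : ℕ) (u v : Sˣ) : chi ψ l (u * v) = chi ψ l u * chi ψ l v := by
  unfold chi
  rw [map_mul, mul_pow, mul_inv]
  exact mul_mul_mul_comm _ _ _ _

theorem chi_pow (ψ : S →+* S) (l : ℕ) (u : Sˣ) (m : ℕ) : chi ψ l (u ^ m) = chi ψ l u ^ m := by
  unfold chi
  rw [map_pow, mul_pow, inv_pow, ← pow_mul, ← pow_mul, mul_comm m l]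

theorem chi_inv (ψ : S →+* S) (l : ℕ) (u : Sˣ) : chi ψ l u⁻¹ = (chi ψ l u)⁻¹ := by
  have h : chi ψ l (u⁻¹ * u) = chi ψ l u⁻¹ * chi ψ l u := chi_mul ψ l _ _
  rw [inv_mul_cancel] at h
  have h1 : chi ψ l (1 : Sˣ) = 1 := by
    unfold chi
    simp
  rw [h1] at h
  exact eq_inv_of_mul_eq_one_left h.symm

theorem chi_comm (ψ τ : S →+* S) (hc : ∀ x, ψ (τ x) = τ (ψ x)) (l : ℕ) (u : Sˣ) :
    chi ψ l (Units.map τ.toMonoidHom u) = Units.map τ.toMonoidHom (chi ψ l u) := by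
  unfold chi
  rw [map_mul, map_inv, map_pow]
  congr 1
  ext
  exact hc u

theorem chi_form (ψ : S →+* S) (l : ℕ) (hw : ∀ x, ∃ w, ψ x = x ^ l + (l : S) * w) (u : Sˣ) :
    ∃ x, ((chi ψ l u : Sˣ) : S) = 1 + (l : S) * x := by
  obtain ⟨w, h⟩ := hw u
  refine ⟨w * (((u ^ l)⁻¹ : Sˣ) : S), ?_⟩
  unfold chi
  rw [Units.val_mul]
  have h1 : ((Units.map ψ.toMonoidHom u : Sˣ) : S) = ψ u := rfl
  rw [h1, h, add_mul]
  have h2 : (u : S) ^ l * (((u ^ l)⁻¹ : Sˣ) : S) = 1 := by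
    rw [← Units.val_pow_eq_pow_val, ← Units.val_mul, mul_inv_cancel]
    rfl
  rw [h2]
  ring

end

theorem cCHI : CHI := by
  intro S _ l n hl hlo hn hl2 h2 z hz ψ σ hψ hσ hc hw K a E h hE hh
  have hlpos := hl.pos
  have sq0 : ∀ x : S, ((l : S) * x) * ((l : S) * x) = 0 := fun x => by
    linear_combination x * x * hl2
  -- the units
  have hU : IsUnit (∏ k, (1 - z ^ E k) ^ a k) :=
    IsUnit.prod_iff.2 fun k _ => (isu hz h2 (hE k)).pow _
  have hV : IsUnit (∏ k, (1 + z ^ E k) ^ a k) :=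
    IsUnit.prod_iff.2 fun k _ => (isu' hz h2 (hE k)).pow _
  obtain ⟨U, hUe⟩ := hU
  obtain ⟨V, hVe⟩ := hV
  have ψU : ψ (U : S) = ∏ k, (1 - (z ^ E k) ^ l) ^ a k := by
    rw [hUe, map_prod]
    refine Finset.prod_congr rfl fun k _ => ?_
    rw [map_pow, map_sub, map_one, map_pow, hψ, ← pow_mul, ← pow_mul, mul_comm l]
  have ψV : ψ (V : S) = ∏ k, (1 + (z ^ E k) ^ l) ^ a k := by
    rw [hVe, map_prod]
    refine Finset.prod_congr rfl fun k _ => ?_
    rw [map_pow, map_add, map_one, map_pow, hψ, ← pow_mul, ← pow_mul, mul_comm l]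
  have σU : σ (U : S) = U * ∏ k, ((z ^ E k) ^ 2 + z ^ E k + 1) ^ a k := by
    rw [hUe, map_prod, ← Finset.prod_mul_distrib]
    refine Finset.prod_congr rfl fun k _ => ?_
    rw [map_pow, map_sub, map_one, map_pow, hσ, ← mul_pow]
    congr 1
    rw [← pow_mul, mul_comm 3, pow_mul]
    ring
  have σV : σ (V : S) = V * ∏ k, ((z ^ E k) ^ 2 - z ^ E k + 1) ^ a k := by
    rw [hVe, map_prod, ← Finset.prod_mul_distrib]
    refine Finset.prod_congr rfl fun k _ => ?_
    rw [map_pow, map_add, map_one, map_pow, hσ, ← mul_pow]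
    congr 1
    rw [← pow_mul, mul_comm 3, pow_mul]
    ring
  have key : σ (U : S) * V = h ^ l * (U * σ (V : S)) := by
    rw [σU, σV, ← hh]
    ring
  have hhu : IsUnit h := by
    have h3 : IsUnit (h ^ l * (U * σ (V : S))) := by
      rw [← key]
      exact (U.isUnit.map σ).mul V.isUnit
    exact (isUnit_pow_iff hlpos.ne').1 (isUnit_of_mul_isUnit_left h3)
  obtain ⟨H, hH⟩ := hhu
  set W : Sˣ := U * V⁻¹ with hW
  have hσW : Units.map σ.toMonoidHom W = H ^ l * W := by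
    have h4 : Units.map σ.toMonoidHom U * V = H ^ l * (U * Units.map σ.toMonoidHom V) := by
      ext
      push_cast
      rw [hH]
      exact key
    have h5 := eq_mul_inv_of_mul_eq h4
    rw [hW, map_mul, map_inv, h5]
    calc H ^ l * (U * Units.map σ.toMonoidHom V) * V⁻¹ * (Units.map σ.toMonoidHom V)⁻¹
        = H ^ l * (U * V⁻¹) * (Units.map σ.toMonoidHom V * (Units.map σ.toMonoidHom V)⁻¹) := by
          ac_rfl
      _ = _ := by rw [mul_inv_cancel, mul_one]
  have hχl : ∀ u : Sˣ, chi ψ l u ^ l = 1 := by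
    intro u
    obtain ⟨x, hx⟩ := chi_form ψ l hw u
    ext
    rw [Units.val_pow_eq_pow_val, hx, pow_lin _ (sq0 x), Units.val_one]
    linear_combination x * hl2
  have hσc : Units.map σ.toMonoidHom (chi ψ l W) = chi ψ l W := by
    rw [← chi_comm ψ σ hc, hσW, chi_mul, chi_pow, hχl, one_mul]
  -- the iterate
  obtain ⟨m, hm, h3⟩ := three n hn
  have hτ : ∀ j, ∃ τ : S →+* S, τ z = z ^ 3 ^ j ∧ (∀ x, ψ (τ x) = τ (ψ x)) ∧
      Units.map τ.toMonoidHom (chi ψ l W) = chi ψ l W := by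
    intro j
    induction j with
    | zero =>
      refine ⟨RingHom.id S, by simp, fun x => rfl, ?_⟩
      ext
      rfl
    | succ j ih =>
      obtain ⟨τ, t1, t2, t3⟩ := ih
      refine ⟨τ.comp σ, ?_, ?_, ?_⟩
      · rw [RingHom.comp_apply, hσ, map_pow, t1, ← pow_mul, ← pow_succ]
      · intro x
        rw [RingHom.comp_apply, RingHom.comp_apply, t2, hc]
      · ext
        have h6 : ((Units.map σ.toMonoidHom (chi ψ l W) : Sˣ) : S) = (chi ψ l W : Sˣ) := by
          rw [hσc]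
        have h7 : ((Units.map τ.toMonoidHom (chi ψ l W) : Sˣ) : S) = (chi ψ l W : Sˣ) := by
          rw [t3]
        change τ (σ ((chi ψ l W : Sˣ) : S)) = _
        have h8 : σ ((chi ψ l W : Sˣ) : S) = (chi ψ l W : Sˣ) := h6
        rw [h8]
        exact h7
  obtain ⟨τ, t1, t2, t3⟩ := hτ (2 ^ (n - 1))
  have hτz : τ z = -z := by
    rw [t1, h3, pow_add, pow_one, pow_mul, hz, hm.neg_one_pow]
    ring
  have hτU : Units.map τ.toMonoidHom U = V := by
    ext
    change τ (U : S) = V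
    rw [hUe, hVe, map_prod]
    refine Finset.prod_congr rfl fun k _ => ?_
    rw [map_pow, map_sub, map_one, map_pow, hτz, (hE k).neg_pow, sub_neg_eq_add]
  have hτV : Units.map τ.toMonoidHom V = U := by
    ext
    change τ (V : S) = U
    rw [hUe, hVe, map_prod]
    refine Finset.prod_congr rfl fun k _ => ?_
    rw [map_pow, map_add, map_one, map_pow, hτz, (hE k).neg_pow, ← sub_eq_add_neg]
  have hτW : Units.map τ.toMonoidHom W = W⁻¹ := by
    rw [hW, map_mul, map_inv, hτU, hτV, mul_inv, inv_inv, mul_comm]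
  have hinv : chi ψ l W = (chi ψ l W)⁻¹ := by
    rw [← chi_inv, ← hτW, chi_comm ψ τ t2, t3]
  have h1 : chi ψ l W = 1 := by
    obtain ⟨x, hx⟩ := chi_form ψ l hw W
    have h9 : ((chi ψ l W : Sˣ) : S) * (chi ψ l W : Sˣ) = 1 := by
      have h10 : chi ψ l W * chi ψ l W = 1 := by
        nth_rw 2 [hinv]
        exact mul_inv_cancel _
      rw [← Units.val_mul, h10]
      rfl
    rw [hx] at h9
    have h11 : (2 : S) * ((l : S) * x) = 0 := by
      linear_combination h9 - x * x * hl2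
    have h12 : (l : S) * x = 0 := by
      obtain ⟨t, ht⟩ := h2
      rw [← ht] at h11
      exact (Units.mul_right_eq_zero t).1 h11
    ext
    rw [hx, h12, add_zero]
    rfl
  -- the end
  have h13 : Units.map ψ.toMonoidHom W = W ^ l := by
    have h14 : Units.map ψ.toMonoidHom W * (W ^ l)⁻¹ = 1 := h1
    exact mul_inv_eq_one.1 h14
  have h15 : Units.map ψ.toMonoidHom U * V ^ l = Units.map ψ.toMonoidHom V * U ^ l := by
    rw [hW, map_mul, map_inv, mul_pow, inv_pow] at h13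
    have h16 : Units.map ψ.toMonoidHom U = U ^ l * (V ^ l)⁻¹ * Units.map ψ.toMonoidHom V :=
      mul_inv_eq_iff_eq_mul.1 h13
    rw [h16]
    calc U ^ l * (V ^ l)⁻¹ * Units.map ψ.toMonoidHom V * V ^ l
        = Units.map ψ.toMonoidHom V * U ^ l * (V ^ l * (V ^ l)⁻¹) := by ac_rfl
      _ = _ := by rw [mul_inv_cancel, mul_one]
  have h17 : ψ (U : S) * (V : S) ^ l = ψ (V : S) * (U : S) ^ l := by
    have := congrArg (fun u : Sˣ => (u : S)) h15
    simpa using this
  rw [ψU, ψV, hUe, hVe] at h17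
  exact h17

end Pool.Agent.Helper39.WC
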